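import Pool.Agent.U481.GL.Stm

/-!
# Project GL (helper481), package DEC
-/

set_option autoImplicit false
set_option linter.unusedVariables false

open MeasureTheory Filter Topology Set
open scoped ENNReal NNReal Real

namespace Pool.Agent.U480.GL

open Pool.Agent.U481.GL

theorem sum_rpow {s : ℝ} (hs : 0 < s) (hs1 : s ≤ 1) (a : ℕ → ℝ≥0∞) (n : ℕ) :
    (∑ k ∈ Finset.range n, a k) ^ s ≤ ∑ k ∈ Finset.range n, (a k) ^ s := by
  induction n with
  | zero => simp [ENNReal.zero_rpow_of_pos hs]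
  | succ n ih =>
    rw [Finset.sum_range_succ, Finset.sum_range_succ]
    exact (ENNReal.rpow_add_le_add_rpow _ _ hs.le hs1).trans (add_le_add ih le_rfl)

theorem tsum_rpow {s : ℝ} (hs : 0 < s) (hs1 : s ≤ 1) (a : ℕ → ℝ≥0∞) :
    (∑' k, a k) ^ s ≤ ∑' k, (a k) ^ s := by
  refine le_of_tendsto' (((ENNReal.continuous_rpow_const (y := s)).tendsto _).comp
    (ENNReal.tendsto_nat_tsum a)) (fun n => ?_)
  exact (sum_rpow hs hs1 a n).trans (ENNReal.sum_le_tsum _)

theorem pt {l : ℝ} (hl : 0 < l) (G : ℝ × ℝ → ℝ≥0∞) (x : ℝ) (q : ℝ × ℝ) (hq : 0 < q.2) :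
    ENNReal.ofReal ((q.2 / (|x - q.1| + q.2)) ^ l) * G q ≤ ENNReal.ofReal ((2 : ℝ) ^ l) *
      ∑' k : ℕ, ENNReal.ofReal ((2 : ℝ) ^ (-(k * l))) * (cone ((2 : ℝ) ^ k) x).indicator G q := by
  have hex : ∃ k : ℕ, |q.1 - x| < (2 : ℝ) ^ k * q.2 := by
    obtain ⟨k, hk⟩ := pow_unbounded_of_one_lt (|q.1 - x| / q.2) (one_lt_two : (1 : ℝ) < 2)
    exact ⟨k, by rwa [div_lt_iff₀ hq] at hk⟩
  classical
  set k := Nat.find hex with hk
  have hk1 : |q.1 - x| < (2 : ℝ) ^ k * q.2 := Nat.find_spec hex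
  have hreal : (q.2 / (|x - q.1| + q.2)) ^ l ≤ (2 : ℝ) ^ l * (2 : ℝ) ^ (-(k * l)) := by
    have hpos : 0 < |x - q.1| + q.2 := by positivity
    rcases Nat.eq_zero_or_pos k with h0 | h0
    · rw [h0]
      simp only [Nat.cast_zero, zero_mul, neg_zero, Real.rpow_zero, mul_one]
      have h1 : (q.2 / (|x - q.1| + q.2)) ^ l ≤ 1 := by
        apply Real.rpow_le_one (by positivity) _ hl.le
        rw [div_le_one hpos]
        linarith [abs_nonneg (x - q.1)]
      exact h1.trans (Real.one_le_rpow one_le_two hl.le)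
    · obtain ⟨m, hm⟩ : ∃ m, k = m + 1 := ⟨k - 1, by omega⟩
      have h1 : ¬ |q.1 - x| < (2 : ℝ) ^ m * q.2 := Nat.find_min hex (by omega)
      push Not at h1
      have h2 : q.2 / (|x - q.1| + q.2) ≤ (2 : ℝ) ^ (-(m : ℝ)) := by
        rw [Real.rpow_neg zero_le_two, Real.rpow_natCast, ← one_div, div_le_div_iff₀ hpos (by positivity)]
        rw [abs_sub_comm x q.1]
        nlinarith
      have h3 : (q.2 / (|x - q.1| + q.2)) ^ l ≤ ((2 : ℝ) ^ (-(m : ℝ))) ^ l :=
        Real.rpow_le_rpow (by positivity) h2 hl.le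
      refine h3.trans (le_of_eq ?_)
      rw [← Real.rpow_mul zero_le_two, ← Real.rpow_add zero_lt_two, hm]
      congr 1
      push_cast
      ring
  have h4 : ENNReal.ofReal ((q.2 / (|x - q.1| + q.2)) ^ l) ≤
      ENNReal.ofReal ((2 : ℝ) ^ l) * ENNReal.ofReal ((2 : ℝ) ^ (-(k * l))) := by
    rw [← ENNReal.ofReal_mul (by positivity)]
    exact ENNReal.ofReal_le_ofReal hreal
  calc ENNReal.ofReal ((q.2 / (|x - q.1| + q.2)) ^ l) * G q
      ≤ ENNReal.ofReal ((2 : ℝ) ^ l) * ENNReal.ofReal ((2 : ℝ) ^ (-(k * l))) * G q := by gcongr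
    _ = ENNReal.ofReal ((2 : ℝ) ^ l) * (ENNReal.ofReal ((2 : ℝ) ^ (-(k * l))) *
        (cone ((2 : ℝ) ^ k) x).indicator G q) := by
        rw [indicator_of_mem (show q ∈ cone ((2 : ℝ) ^ k) x from hk1), mul_assoc]
    _ ≤ _ := by
        gcongr
        exact ENNReal.le_tsum (f := fun k : ℕ => ENNReal.ofReal ((2 : ℝ) ^ (-(k * l))) *
          (cone ((2 : ℝ) ^ k) x).indicator G q) k

theorem meas_cone (a x : ℝ) : MeasurableSet (cone a x) := by
  unfold cone
  exact measurableSet_lt (by fun_prop) (by fun_prop)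

theorem main : S_dec := by
  intro l p hl hp hp2 G hG x
  have hs : 0 < p / 2 := by positivity
  have hs1 : p / 2 ≤ 1 := by linarith
  have h1 : (∫⁻ q in {q : ℝ × ℝ | 0 < q.2}, ENNReal.ofReal ((q.2 / (|x - q.1| + q.2)) ^ l) * G q) ≤
      ENNReal.ofReal ((2 : ℝ) ^ l) * ∑' k : ℕ, ENNReal.ofReal ((2 : ℝ) ^ (-(k * l))) *
        ∫⁻ q in cone ((2 : ℝ) ^ k) x, G q := by
    calc (∫⁻ q in {q : ℝ × ℝ | 0 < q.2}, ENNReal.ofReal ((q.2 / (|x - q.1| + q.2)) ^ l) * G q)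
        ≤ ∫⁻ q in {q : ℝ × ℝ | 0 < q.2}, ENNReal.ofReal ((2 : ℝ) ^ l) *
          ∑' k : ℕ, ENNReal.ofReal ((2 : ℝ) ^ (-(k * l))) *
            (cone ((2 : ℝ) ^ k) x).indicator G q := by
          refine setLIntegral_mono' (measurableSet_lt measurable_const measurable_snd) ?_
          intro q hq
          exact pt hl G x q hq
      _ ≤ ∫⁻ q, ENNReal.ofReal ((2 : ℝ) ^ l) *
          ∑' k : ℕ, ENNReal.ofReal ((2 : ℝ) ^ (-(k * l))) *
            (cone ((2 : ℝ) ^ k) x).indicator G q := setLIntegral_le_lintegral _ _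
      _ = ENNReal.ofReal ((2 : ℝ) ^ l) * ∑' k : ℕ, ENNReal.ofReal ((2 : ℝ) ^ (-(k * l))) *
        ∫⁻ q in cone ((2 : ℝ) ^ k) x, G q := by
          rw [lintegral_const_mul' _ _ ENNReal.ofReal_ne_top, lintegral_tsum]
          · congr 1
            refine tsum_congr (fun k => ?_)
            rw [lintegral_const_mul' _ _ ENNReal.ofReal_ne_top, lintegral_indicator (meas_cone _ _)]
          · intro k
            exact ((hG.indicator (meas_cone _ _)).const_mul _).aemeasurable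
  unfold GS
  rw [← ENNReal.rpow_mul, show (1 / 2 : ℝ) * p = p / 2 by ring]
  refine (ENNReal.rpow_le_rpow h1 hs.le).trans ?_
  rw [ENNReal.mul_rpow_of_nonneg _ _ hs.le, ENNReal.ofReal_rpow_of_nonneg (by positivity) hs.le,
    ← Real.rpow_mul zero_le_two, show l * (p / 2) = l * p / 2 by ring]
  gcongr
  refine (tsum_rpow hs hs1 _).trans (le_of_eq (tsum_congr (fun k => ?_)))
  unfold SG
  rw [ENNReal.mul_rpow_of_nonneg _ _ hs.le, ENNReal.ofReal_rpow_of_nonneg (by positivity) hs.le,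
    ← Real.rpow_mul zero_le_two, ← ENNReal.rpow_mul, show (1 / 2 : ℝ) * p = p / 2 by ring,
    show -((k : ℝ) * l) * (p / 2) = -(k * (l * p / 2)) by ring]

end Pool.Agent.U480.GL
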